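import Pool.Agent.Helper60.WC.SupE
import Pool.Agent.Helper54.WC.Ae
import Pool.Agent.Helper40.LW.LimMeasF

/-!
# WC, blocks D4b and D4c: rational radii and centres are enough for the largest error, and the mean is a measurable function of the series
-/

open MeasureTheory Real Set Filter Topology unitInterval

set_option autoImplicit false

namespace Pool.Agent.Helper35.WCS

open Pool.Agent.Helper22.AE
open Pool.Agent.Helper22.AC (cntc)
open Pool.Agent.Helper22.WC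

/-- the normalized largest error is measurable and locally bounded under a test function -/
theorem phi_facts {H : ℝ → ℝ} (hH : ContDiff ℝ 2 H) (hp : Function.Periodic H (2 * π)) (hr : ∀ θ, 0 < H θ + deriv (deriv H) θ)
    {φ : ℝ → ℝ} (hφ : Continuous φ) :
    Measurable (fun R : ℝ => φ (SupE H R / sqrt R)) ∧ ∀ Y : ℝ, ∃ C : ℝ, ∀ R ∈ Icc 1 Y, ‖φ (SupE H R / sqrt R)‖ ≤ C := by
  obtain ⟨-, hb, hm, -⟩ := Pool.Agent.Helper60.WC.supE_facts hH hp hr
  refine ⟨hφ.measurable.comp (hm.div Real.continuous_sqrt.measurable), fun Y => ?_⟩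
  obtain ⟨C, hC⟩ := hb Y
  obtain ⟨M, hM⟩ := (isCompact_Icc (a := (0 : ℝ)) (b := C)).exists_bound_of_continuousOn (f := φ) hφ.continuousOn
  refine ⟨M, fun R hR => hM _ ?_⟩
  obtain ⟨h0, h1⟩ := hC R hR
  have h2 : (1 : ℝ) ≤ sqrt R := by
    rw [Real.one_le_sqrt]
    exact hR.1
  exact ⟨by positivity, (div_le_self h0 h2).trans h1⟩

/-- approximation by rational radii -/
theorem approxS {H : ℝ → ℝ} (hH : ContDiff ℝ 2 H) (hp : Function.Periodic H (2 * π)) (hr : ∀ θ, 0 < H θ + deriv (deriv H) θ)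
    {φ : ℝ → ℝ} (hφ : Continuous φ) {X : ℝ} (hX : 1 ≤ X) : ∃ q : ℕ → ℚ, (∀ j, X ≤ q j) ∧
      Tendsto (fun j => (q j : ℝ)⁻¹ * ∫ R in Icc (q j : ℝ) (2 * q j), φ (SupE H R / sqrt R)) atTop
        (𝓝 (X⁻¹ * ∫ R in Icc X (2 * X), φ (SupE H R / sqrt R))) := by
  obtain ⟨hm, hb⟩ := phi_facts hH hp hr hφ
  set F : ℝ → ℝ := fun R => φ (SupE H R / sqrt R) with hF
  obtain ⟨C, hC⟩ := hb (3 * X + 3)
  have hC0 : 0 ≤ C := (norm_nonneg _).trans (hC 1 ⟨le_rfl, by linarith⟩)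
  have hI : ∀ a b : ℝ, 1 ≤ a → 1 ≤ b → a ≤ 3 * X + 3 → b ≤ 3 * X + 3 → IntervalIntegrable F volume a b := by
    intro a b ha hb' ha' hb''
    rw [intervalIntegrable_iff]
    refine Measure.integrableOn_of_bounded (M := C) ?_ hm.aestronglyMeasurable ?_
    · rw [uIoc, Real.volume_Ioc]
      exact ENNReal.ofReal_ne_top
    · refine (ae_restrict_iff' measurableSet_uIoc).2 (Eventually.of_forall fun R hR => hC R ?_)
      rw [mem_uIoc] at hR
      rcases hR with h | h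
      · exact ⟨by linarith [h.1], by linarith [h.2]⟩
      · exact ⟨by linarith [h.1], by linarith [h.2]⟩
  have hN : ∀ a b : ℝ, 1 ≤ a → 1 ≤ b → a ≤ 3 * X + 3 → b ≤ 3 * X + 3 → |∫ R in a..b, F R| ≤ C * |b - a| := by
    intro a b ha hb' ha' hb''
    refine intervalIntegral.norm_integral_le_of_norm_le_const fun R hR => hC R ?_
    rw [mem_uIoc] at hR
    rcases hR with h | h
    · exact ⟨by linarith [h.1], by linarith [h.2]⟩
    · exact ⟨by linarith [h.1], by linarith [h.2]⟩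
  choose q hq1 hq2 using fun j : ℕ => exists_rat_btwn (show X < X + 1 / ((j : ℝ) + 1) by
    have : 0 < 1 / ((j : ℝ) + 1) := by positivity
    linarith)
  refine ⟨q, fun j => (hq1 j).le, ?_⟩
  have htt : Tendsto (fun j : ℕ => 1 / ((j : ℝ) + 1)) atTop (𝓝 0) := tendsto_one_div_add_atTop_nhds_zero_nat (𝕜 := ℝ)
  have hqX : Tendsto (fun j => (q j : ℝ)) atTop (𝓝 X) := by
    have h1 := (tendsto_const_nhds (x := X)).add htt
    rw [add_zero] at h1
    exact tendsto_of_tendsto_of_tendsto_of_le_of_le tendsto_const_nhds h1 (fun j => (hq1 j).le) (fun j => (hq2 j).le)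
  have hX0 : 0 < X := by linarith
  refine (hqX.inv₀ hX0.ne').mul ?_
  have hle : ∀ j : ℕ, 1 / ((j : ℝ) + 1) ≤ 1 := fun j => by
    rw [div_le_one (by positivity)]
    have : (0 : ℝ) ≤ j := Nat.cast_nonneg j
    linarith
  have hset : ∀ a : ℝ, 0 ≤ a → ∫ R in Icc a (2 * a), F R = ∫ R in a..(2 * a), F R := fun a ha => by
    rw [intervalIntegral.integral_of_le (by linarith), integral_Icc_eq_integral_Ioc]
  rw [tendsto_iff_norm_sub_tendsto_zero]
  have hz : Tendsto (fun j : ℕ => C * (3 * (1 / ((j : ℝ) + 1)))) atTop (𝓝 0) := by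
    have h1 := (htt.const_mul 3).const_mul C
    simpa using h1
  refine squeeze_zero (fun j => norm_nonneg _) (fun j => ?_) hz
  have h1 := hq1 j
  have h2 := hq2 j
  have h3 := hle j
  change ‖(∫ R in Icc (q j : ℝ) (2 * q j), F R) - ∫ R in Icc X (2 * X), F R‖ ≤ _
  rw [hset _ (by linarith), hset _ hX0.le]
  have e1 : ∫ R in (q j : ℝ)..(2 * q j), F R = (∫ R in (q j : ℝ)..X, F R) + ((∫ R in X..(2 * X), F R) + ∫ R in (2 * X)..(2 * q j), F R) := by
    rw [intervalIntegral.integral_add_adjacent_intervals (hI _ _ (by linarith) (by linarith) (by linarith) (by linarith))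
        (hI _ _ (by linarith) (by linarith) (by linarith) (by linarith)),
      intervalIntegral.integral_add_adjacent_intervals (hI _ _ (by linarith) (by linarith) (by linarith) (by linarith))
        (hI _ _ (by linarith) (by linarith) (by linarith) (by linarith))]
  have e2 : (∫ R in (q j : ℝ)..(2 * q j), F R) - (∫ R in X..(2 * X), F R) = (∫ R in (q j : ℝ)..X, F R) + ∫ R in (2 * X)..(2 * q j), F R := by
    rw [e1]
    ring
  rw [e2, Real.norm_eq_abs]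
  have b1 := hN (q j) X (by linarith) (by linarith) (by linarith) (by linarith)
  have b2 := hN (2 * X) (2 * q j) (by linarith) (by linarith) (by linarith) (by linarith)
  have a1 : |X - (q j : ℝ)| ≤ 1 / ((j : ℝ) + 1) := by
    rw [abs_le]
    constructor <;> linarith
  have a2 : |2 * (q j : ℝ) - 2 * X| ≤ 2 * (1 / ((j : ℝ) + 1)) := by
    rw [abs_le]
    constructor <;> linarith
  calc |(∫ R in (q j : ℝ)..X, F R) + ∫ R in (2 * X)..(2 * q j), F R| ≤ |∫ R in (q j : ℝ)..X, F R| + |∫ R in (2 * X)..(2 * q j), F R| := abs_add_le _ _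
    _ ≤ C * |X - (q j : ℝ)| + C * |2 * (q j : ℝ) - 2 * X| := add_le_add b1 b2
    _ ≤ C * (1 / ((j : ℝ) + 1)) + C * (2 * (1 / ((j : ℝ) + 1))) :=
        add_le_add (mul_le_mul_of_nonneg_left a1 hC0) (mul_le_mul_of_nonneg_left a2 hC0)
    _ = _ := by ring

/-- the rational centres suffice under the integral -/
theorem intQ {H : ℝ → ℝ} (hH : ContDiff ℝ 2 H) (hp : Function.Periodic H (2 * π)) (hr : ∀ θ, 0 < H θ + deriv (deriv H) θ)
    (φ : ℝ → ℝ) {X : ℝ} (hX : 0 < X) :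
    ∫ R in Icc X (2 * X), φ (SupQ H R / sqrt R) = ∫ R in Icc X (2 * X), φ (SupE H R / sqrt R) := by
  refine setIntegral_congr_ae measurableSet_Icc ?_
  filter_upwards [Pool.Agent.Helper54.WC.supE_ae hH hp hr] with R hR hRX
  rw [hR (lt_of_lt_of_le hX hRX.1)]

/-- D4b: rational radii -/
theorem rat_limS {H : ℝ → ℝ} (hH : ContDiff ℝ 2 H) (hp : Function.Periodic H (2 * π)) (hrho : ∀ θ, 0 < H θ + deriv (deriv H) θ)
    {φ : ℝ → ℝ} (hφ : Continuous φ) :
    LimS H φ ↔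
    (∀ n : ℕ, ∃ X₀ : ℕ, ∀ X Y : ℚ, ((X₀ : ℚ) + 1 ≤ X) → ((X₀ : ℚ) + 1 ≤ Y) →
      |(X : ℝ)⁻¹ * (∫ R in Icc (X : ℝ) (2 * X), φ (SupQ H R / sqrt R)) -
        (Y : ℝ)⁻¹ * (∫ R in Icc (Y : ℝ) (2 * Y), φ (SupQ H R / sqrt R))| ≤ 1 / ((n : ℝ) + 1)) := by
  have hpos : ∀ (N : ℕ) (X : ℚ), ((N : ℚ) + 1 ≤ X) → (N : ℝ) + 1 ≤ X ∧ (0 : ℝ) < X := fun N X hX => by
    have h1 : (N : ℝ) + 1 ≤ X := by exact_mod_cast hX
    have h2 : (0 : ℝ) ≤ N := Nat.cast_nonneg N
    exact ⟨h1, by linarith⟩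
  constructor
  · rintro ⟨m, hm⟩ n
    obtain ⟨X₀, -, h⟩ := hm (1 / (2 * ((n : ℝ) + 1))) (by positivity)
    obtain ⟨N, hN⟩ := exists_nat_ge X₀
    refine ⟨N, fun X Y hX hY => ?_⟩
    obtain ⟨hX', hX0⟩ := hpos N X hX
    obtain ⟨hY', hY0⟩ := hpos N Y hY
    rw [intQ hH hp hrho φ hX0, intQ hH hp hrho φ hY0]
    have h1 := abs_le.1 (h X (by linarith))
    have h2 := abs_le.1 (h Y (by linarith))
    have h3 : 1 / ((n : ℝ) + 1) = 1 / (2 * ((n : ℝ) + 1)) + 1 / (2 * ((n : ℝ) + 1)) := by field_simp; norm_num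
    rw [h3, abs_le]
    constructor <;> linarith [h1.1, h1.2, h2.1, h2.2]
  · intro h
    set M : ℝ → ℝ := fun X => X⁻¹ * ∫ R in Icc X (2 * X), φ (SupE H R / sqrt R) with hM
    have h' : ∀ n : ℕ, ∃ X₀ : ℕ, ∀ X Y : ℚ, ((X₀ : ℚ) + 1 ≤ X) → ((X₀ : ℚ) + 1 ≤ Y) →
        |M X - M Y| ≤ 1 / ((n : ℝ) + 1) := by
      intro n
      obtain ⟨X₀, hX₀⟩ := h n
      refine ⟨X₀, fun X Y hX hY => ?_⟩
      have h1 := hX₀ X Y hX hY
      rwa [intQ hH hp hrho φ (hpos _ _ hX).2, intQ hH hp hrho φ (hpos _ _ hY).2] at h1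
    have hcau : CauchySeq (fun k : ℕ => M k) := by
      rw [Metric.cauchySeq_iff]
      intro ε hε
      obtain ⟨n, hn⟩ := exists_nat_one_div_lt hε
      obtain ⟨X₀, hX₀⟩ := h' n
      refine ⟨X₀ + 1, fun a ha b hb => ?_⟩
      have h1 := hX₀ a b (by exact_mod_cast ha) (by exact_mod_cast hb)
      rw [Real.dist_eq]
      refine lt_of_le_of_lt ?_ hn
      simpa using h1
    obtain ⟨m, hm⟩ := cauchySeq_tendsto_of_complete hcau
    refine ⟨m, fun ε hε => ?_⟩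
    obtain ⟨n, hn⟩ := exists_nat_one_div_lt hε
    obtain ⟨X₀, hX₀⟩ := h' n
    have hrat : ∀ X : ℚ, ((X₀ : ℚ) + 1 ≤ X) → |M X - m| ≤ 1 / ((n : ℝ) + 1) := by
      intro X hX
      have h1 : Tendsto (fun k : ℕ => |M X - M k|) atTop (𝓝 |M X - m|) := (tendsto_const_nhds.sub hm).abs
      refine le_of_tendsto h1 ?_
      filter_upwards [eventually_ge_atTop (X₀ + 1)] with k hk
      have h2 := hX₀ X k hX (by exact_mod_cast hk)
      simpa using h2
    refine ⟨X₀ + 1, by linarith [(Nat.cast_nonneg X₀ : (0 : ℝ) ≤ X₀)], fun X hX => ?_⟩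
    have hX1 : 1 ≤ X := by linarith [(Nat.cast_nonneg X₀ : (0 : ℝ) ≤ X₀)]
    obtain ⟨q, hq, hlim⟩ := approxS hH hp hrho hφ hX1
    have h1 : Tendsto (fun j => |M (q j) - m|) atTop (𝓝 |M X - m|) := (hlim.sub_const m).abs
    refine (le_of_tendsto h1 (Eventually.of_forall fun j => ?_)).trans hn.le
    refine hrat (q j) ?_
    have := hq j
    have h3 : ((X₀ : ℝ) + 1) ≤ q j := by linarith
    exact_mod_cast h3

/-- the largest error over the rational centres is jointly measurable in the series and the radius -/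
theorem supQ_joint {H₀ : ℝ → ℝ} (h0 : ContDiff ℝ 2 H₀) (hp : Function.Periodic H₀ (2 * π)) {s : ℕ → ℝ}
    (hs : Summable (fun l : ℕ => (l : ℝ) ^ 2 * |s l|)) :
    Measurable (fun q : (ℕ → I × I) × ℝ => SupQ (Hx H₀ s q.1) q.2 / sqrt q.2) := by
  have h1 : ∀ c : ℚ × ℚ, Measurable (fun q : (ℕ → I × I) × ℝ =>
      |cntc (Hx H₀ s q.1) ((c.1 : ℝ), (c.2 : ℝ)) q.2 - area (Hx H₀ s q.1) * q.2 ^ 2| / sqrt q.2) := by
    intro c
    have h := continuous_abs.measurable.comp (Pool.Agent.Helper40.LW.err1_joint h0 hp hs ((c.1 : ℝ), (c.2 : ℝ)))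
    have e : (fun q : (ℕ → I × I) × ℝ =>
        |cntc (Hx H₀ s q.1) ((c.1 : ℝ), (c.2 : ℝ)) q.2 - area (Hx H₀ s q.1) * q.2 ^ 2| / sqrt q.2) =
        (fun y : ℝ => |y|) ∘ fun q : (ℕ → I × I) × ℝ =>
          (cntc (Hx H₀ s q.1) ((c.1 : ℝ), (c.2 : ℝ)) q.2 - area (Hx H₀ s q.1) * q.2 ^ 2) / sqrt q.2 := by
      funext q
      simp only [Function.comp, abs_div, abs_of_nonneg (Real.sqrt_nonneg _)]
    rw [e]
    exact h
  have h2 := Measurable.iSup h1
  have e : (fun q : (ℕ → I × I) × ℝ => SupQ (Hx H₀ s q.1) q.2 / sqrt q.2) = fun q : (ℕ → I × I) × ℝ =>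
      ⨆ c : ℚ × ℚ, |cntc (Hx H₀ s q.1) ((c.1 : ℝ), (c.2 : ℝ)) q.2 - area (Hx H₀ s q.1) * q.2 ^ 2| / sqrt q.2 := by
    funext q
    simp only [SupQ, div_eq_mul_inv]
    exact Real.iSup_mul_of_nonneg (by positivity) _
  rw [e]
  exact h2

/-- D4c: measurability -/
theorem lim_measS {H₀ : ℝ → ℝ} (h0 : ContDiff ℝ 2 H₀) (hp : Function.Periodic H₀ (2 * π)) {s : ℕ → ℝ}
    (hs : Summable (fun l : ℕ => (l : ℝ) ^ 2 * |s l|)) {X : ℝ} (hX : 1 ≤ X) {φ : ℝ → ℝ} (hφ : Continuous φ) :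
    Measurable (fun x : ℕ → I × I => ∫ R in Icc X (2 * X), φ (SupQ (Hx H₀ s x) R / sqrt R)) := by
  have h1 := (hφ.measurable.comp (supQ_joint h0 hp hs)).stronglyMeasurable
  exact (h1.integral_prod_right' (ν := volume.restrict (Icc X (2 * X)))).measurable

end Pool.Agent.Helper35.WCS
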